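import Pool.Agent.Y268.D3.Stm

/-!
# Project D3: closed convex invariant sets of forms are closed under means; Dixmier forms
-/

set_option autoImplicit false

open scoped ComplexOrder InnerProductSpace ComplexConjugate Topology
open Finset Filter

noncomputable section

namespace Pool.Agent.Y328.D3

open H759R2.Kad H711R2.KG Y268.D3

/-! ### Neighbourhoods of forms -/

theorem fin_min {ι : Type*} (s : Finset ι) (e : ι → ℝ) (he : ∀ i, 0 < e i) :
    ∃ c : ℝ, 0 < c ∧ ∀ i ∈ s, c ≤ e i := by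
  classical
  induction s using Finset.induction_on with
  | empty => exact ⟨1, one_pos, fun i hi => absurd hi (Finset.notMem_empty i)⟩
  | insert a s ha ih =>
    obtain ⟨c, hc, h⟩ := ih
    refine ⟨min c (e a), lt_min hc (he a), fun i hi => ?_⟩
    rcases Finset.mem_insert.1 hi with rfl | hi
    · exact min_le_right _ _
    · exact (min_le_left _ _).trans (h i hi)

/-- every neighbourhood contains the forms which are close at finitely many pairs -/
theorem form_nhds {K : Type} (o : Set (Form K)) (ho : IsOpen o) (p : Form K) (hp : p ∈ o) :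
    ∃ (F : Finset K) (ε : ℝ), 0 < ε ∧
      ∀ p' : Form K, (∀ ξ ∈ F, ∀ η ∈ F, ‖p' ξ η - p ξ η‖ ≤ ε) → p' ∈ o := by
  classical
  obtain ⟨I, u, hu, hsub⟩ := isOpen_pi_iff.1 ho p hp
  have h1 : ∀ ξ, ∃ (J : Finset K) (ε : ℝ), 0 < ε ∧ (ξ ∈ I → ∀ f : K → ℂ,
      (∀ η ∈ J, ‖f η - p ξ η‖ ≤ ε) → f ∈ u ξ) := by
    intro ξ
    by_cases hξ : ξ ∈ I
    · obtain ⟨J, v, hv, hsub'⟩ := isOpen_pi_iff.1 (hu ξ hξ).1 (p ξ) (hu ξ hξ).2
      have h2 : ∀ η, ∃ e : ℝ, 0 < e ∧ (η ∈ J → Metric.ball (p ξ η) e ⊆ v η) := by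
        intro η
        by_cases hη : η ∈ J
        · obtain ⟨e, he, he'⟩ := Metric.isOpen_iff.1 (hv η hη).1 _ (hv η hη).2
          exact ⟨e, he, fun _ => he'⟩
        · exact ⟨1, one_pos, fun h => absurd h hη⟩
      choose e he he' using h2
      obtain ⟨c, hc, hc'⟩ := fin_min J e he
      refine ⟨J, c / 2, by positivity, fun _ f hf => hsub' ?_⟩
      intro η hη
      apply he' η hη
      rw [Metric.mem_ball, dist_eq_norm]
      have := hf η hη
      have := hc' η hη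
      linarith
    · exact ⟨∅, 1, one_pos, fun h => absurd h hξ⟩
  choose J e he he' using h1
  obtain ⟨c, hc, hc'⟩ := fin_min I e he
  refine ⟨I ∪ I.biUnion J, c, hc, fun p' hp' => hsub ?_⟩
  intro ξ hξ
  apply he' ξ hξ
  intro η hη
  refine (hp' ξ (Finset.mem_union_left _ hξ) η
    (Finset.mem_union_right _ (Finset.mem_biUnion.2 ⟨ξ, hξ, hη⟩))).trans (hc' ξ hξ)

theorem closure_iff {K : Type} (X : Set (Form K)) (p : Form K)
    (h : ∀ (F : Finset K) (ε : ℝ), 0 < ε → ∃ p' ∈ X, ∀ ξ ∈ F, ∀ η ∈ F, ‖p' ξ η - p ξ η‖ ≤ ε) :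
    p ∈ closure X := by
  rw [mem_closure_iff]
  intro o ho hp
  obtain ⟨F, ε, hε, hF⟩ := form_nhds o ho p hp
  obtain ⟨p', hp', hclose⟩ := h F ε hε
  exact ⟨p', hF p' hclose, hp'⟩

theorem of_closure {K : Type} (X : Set (Form K)) (p : Form K) (hp : p ∈ closure X)
    (F : Finset K) (ε : ℝ) (hε : 0 < ε) :
    ∃ p' ∈ X, ∀ ξ ∈ F, ∀ η ∈ F, ‖p' ξ η - p ξ η‖ ≤ ε := by
  have hev : ∀ᶠ p' : Form K in 𝓝 p, ∀ ξ ∈ F, ∀ η ∈ F, ‖p' ξ η - p ξ η‖ ≤ ε := by
    rw [Finset.eventually_all]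
    intro ξ _
    rw [Finset.eventually_all]
    intro η _
    have hc : Continuous fun p' : Form K => ‖p' ξ η - p ξ η‖ := by fun_prop
    have h2 := hc.tendsto p
    simp only [sub_self, norm_zero] at h2
    exact h2.eventually (ge_mem_nhds hε)
  obtain ⟨p', h1, h2⟩ := ((mem_closure_iff_frequently.1 hp).and_eventually hev).exists
  exact ⟨p', h1, h2⟩

/-! ### Unitaries -/

theorem norm_uni {B : Type} [CStarAlgebra B] (v : unitary B) : ‖(v : B)‖ ≤ 1 := by
  rcases subsingleton_or_nontrivial B with h | h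
  · rw [Subsingleton.elim (v : B) 0, norm_zero]
    exact zero_le_one
  · exact (CStarRing.norm_coe_unitary v).le

section

variable {B : Type} [CStarAlgebra B] {K : Type} [NormedAddCommGroup K] [InnerProductSpace ℂ K]
  {w : B →ₗ[ℂ] (K →L[ℂ] K)} {γ : ℝ}

theorem w_le (hγ : 0 ≤ γ) (hb : ∀ b, ‖w b‖ ≤ γ * ‖b‖) (v : unitary B) (ξ : K) :
    ‖w (v : B) ξ‖ ≤ γ * ‖ξ‖ := by
  refine ((w (v : B)).le_opNorm ξ).trans (mul_le_mul_of_nonneg_right ?_ (norm_nonneg _))
  refine (hb _).trans ?_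
  calc γ * ‖(v : B)‖ ≤ γ * 1 := mul_le_mul_of_nonneg_left (norm_uni v) hγ
    _ = γ := mul_one _

theorem q_le (hγ : 0 ≤ γ) (hb : ∀ b, ‖w b‖ ≤ γ * ‖b‖) {q : Form K} {C : ℝ} (hC : 0 ≤ C)
    (hq : IsForm q C) (v : unitary B) (ξ η : K) :
    ‖q (w (v : B) ξ) (w (v : B) η)‖ ≤ C * (γ * ‖ξ‖) * (γ * ‖η‖) := by
  refine (hq.bd _ _).trans ?_
  have h1 := w_le hγ hb v ξ
  have h2 := w_le hγ hb v η
  gcongr

end

/-- a functional on a finite product of copies of `ℂ` -/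
theorem mean_fun {S : Type} (E : Mean S) {X : Type} [Fintype X]
    (φ : (X → ℂ) →L[ℂ] ℂ) (F : S → X → ℂ) (v : X → ℂ) (h : ∀ x, E.E (fun s => F s x) = v x) :
    E.E (fun s => φ (F s)) = φ v := by
  classical
  have h1 : ∀ f : X → ℂ, φ f = ∑ x, f x * φ (Pi.single x 1) := by
    intro f
    conv_lhs => rw [← Finset.univ_sum_single f]
    rw [map_sum]
    refine Finset.sum_congr rfl fun x _ => ?_
    have : (Pi.single x (f x) : X → ℂ) = f x • Pi.single x 1 := by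
      rw [← Pi.single_smul', smul_eq_mul, mul_one]
    rw [this, map_smul, smul_eq_mul]
  have e : (fun s => φ (F s)) = fun s => ∑ x, F s x * φ (Pi.single x 1) := by
    funext s
    exact h1 (F s)
  rw [e, E.sum', h1 v]
  refine Finset.sum_congr rfl fun x _ => ?_
  rw [E.mul_const, h]

theorem prove_clos : S_mazur → S_cb → S_clos := by
  intro hm hcb B _ _ _ K _ _ _ w hw γ hγ hb X hX hXc hXconv hXinv S E v q hq
  obtain ⟨-, -, -, hform, -, -⟩ := hcb B K w hw γ hγ hb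
  have hq' := hform q (hX hq)
  rw [← hXc.closure_eq]
  apply closure_iff
  intro F ε hε
  have hC : (0 : ℝ) ≤ 6 * γ ^ 2 := by positivity
  obtain ⟨n, t, s, ht, ht1, hts⟩ := hm S E ((F × F) → ℂ)
    (fun s x => q (w (v s : B) (x.1 : K)) (w (v s : B) (x.2 : K)))
    (∑ x : F × F, 6 * γ ^ 2 * (γ * ‖(x.1 : K)‖) * (γ * ‖(x.2 : K)‖)) (by
      intro s
      rw [pi_norm_le_iff_of_nonneg (Finset.sum_nonneg fun x _ => by positivity)]
      intro x
      refine (q_le hγ hb hC hq' (v s) _ _).trans ?_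
      exact Finset.single_le_sum
        (f := fun x : F × F => 6 * γ ^ 2 * (γ * ‖(x.1 : K)‖) * (γ * ‖(x.2 : K)‖))
        (fun x _ => by positivity) (Finset.mem_univ x))
    (fun x => E.E (fun s => q (w (v s : B) (x.1 : K)) (w (v s : B) (x.2 : K))))
    (fun φ => mean_fun E φ _ _ fun x => rfl) ε hε
  refine ⟨∑ i, t i • act w (v (s i) : B) q, ?_, ?_⟩
  · exact hXconv.sum_mem (fun i _ => ht i) ht1 (fun i _ => hXinv q hq _)
  · intro ξ hξ η hη
    have h1 := (norm_le_pi_norm _ ((⟨ξ, hξ⟩, ⟨η, hη⟩) : F × F)).trans hts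
    refine le_trans (le_of_eq ?_) h1
    congr 1
    simp only [Pi.sub_apply, Finset.sum_apply, Pi.smul_apply, smul_eq_mul]
    congr 1

end Pool.Agent.Y328.D3
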