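import Pool.Agent.Y328.D3.Clos

/-!
# Project D3: forms fixed by a Dixmier mean are Dixmier forms
-/

set_option autoImplicit false

open scoped ComplexOrder InnerProductSpace ComplexConjugate Topology ComplexStarModule
open Finset Filter

noncomputable section

namespace Pool.Agent.Y328.D3

open H759R2.Kad H711R2.KG Y268.D3

section

variable {B : Type} [CStarAlgebra B] [PartialOrder B] [StarOrderedRing B]

theorem sa_conj {κ : Type} [Fintype κ] (g : κ → B) (hg : ∑ s, g s * star (g s) = 1) (x : B)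
    (hx : IsSelfAdjoint x) : ‖∑ s, g s * x * star (g s)‖ ≤ ‖x‖ := by
  rcases subsingleton_or_nontrivial B with h | h
  · rw [Subsingleton.elim (∑ s, g s * x * star (g s)) 0, norm_zero]
    exact norm_nonneg _
  set a := ∑ s, g s * x * star (g s) with ha
  have hsum : ∀ r : ℝ, ∑ s, g s * algebraMap ℝ B r * star (g s) = algebraMap ℝ B r := by
    intro r
    have : ∀ s, g s * algebraMap ℝ B r * star (g s) = algebraMap ℝ B r * (g s * star (g s)) := by
      intro s
      rw [← Algebra.commutes, mul_assoc]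
    simp_rw [this]
    rw [← Finset.mul_sum, hg, mul_one]
  have hsa : IsSelfAdjoint a := by
    rw [ha, isSelfAdjoint_iff, star_sum]
    refine Finset.sum_congr rfl fun s _ => ?_
    rw [star_mul, star_mul, star_star, hx.star_eq, mul_assoc]
  have h1 : a ≤ algebraMap ℝ B ‖x‖ := by
    rw [ha, ← hsum ‖x‖]
    exact Finset.sum_le_sum fun s _ =>
      star_right_conjugate_le_conjugate hx.le_algebraMap_norm_self (g s)
  have h2 : algebraMap ℝ B (-‖x‖) ≤ a := by
    rw [ha, ← hsum (-‖x‖)]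
    refine Finset.sum_le_sum fun s _ => star_right_conjugate_le_conjugate ?_ (g s)
    rw [map_neg]
    exact hx.neg_algebraMap_norm_le_self
  rw [le_algebraMap_iff_spectrum_le] at h1
  rw [algebraMap_le_iff_le_spectrum] at h2
  rcases CStarAlgebra.norm_or_neg_norm_mem_spectrum hsa with h3 | h3
  · exact h1 _ h3
  · have := h2 _ h3
    linarith

theorem conj_le {κ : Type} [Fintype κ] (g : κ → B) (hg : ∑ s, g s * star (g s) = 1) (y : B) :
    ‖∑ s, g s * y * star (g s)‖ ≤ 2 * ‖y‖ := by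
  have e : ∑ s, g s * y * star (g s) = (∑ s, g s * (ℜ y : B) * star (g s)) +
      Complex.I • (∑ s, g s * (ℑ y : B) * star (g s)) := by
    rw [Finset.smul_sum, ← Finset.sum_add_distrib]
    refine Finset.sum_congr rfl fun s _ => ?_
    conv_lhs => rw [← realPart_add_I_smul_imaginaryPart y]
    rw [mul_add, add_mul, mul_smul_comm, smul_mul_assoc]
  rw [e]
  refine (norm_add_le _ _).trans ?_
  rw [norm_smul, Complex.norm_I, one_mul]
  have h1 := sa_conj g hg (ℜ y : B) (ℜ y).2
  have h2 := sa_conj g hg (ℑ y : B) (ℑ y).2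
  have h3 : ‖(ℜ y : B)‖ ≤ ‖y‖ := realPart.norm_le y
  have h4 : ‖(ℑ y : B)‖ ≤ ‖y‖ := imaginaryPart.norm_le y
  linarith

end

/-- functionals on the product -/
theorem mean_fun2 {B : Type} [CStarAlgebra B] {τ : B →ₗ[ℂ] ℂ} {E : Mean (unitary B)}
    (hE : DixMean τ E) {X : Type} [Fintype X] {Z : Finset B}
    (φ : ((X → ℂ) × (Z → B)) →L[ℂ] ℂ) (F : unitary B → X → ℂ) (a : X → ℂ)
    (h : ∀ x, E.E (fun v => F v x) = a x) :
    E.E (fun v => φ (F v, fun z : Z => (v : B) * (z : B) * star (v : B))) =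
      φ (a, fun z : Z => algebraMap ℂ B (τ z)) := by
  classical
  have h0 : ∀ (f : X → ℂ) (b : Z → B), φ (f, b) =
      (φ.comp (ContinuousLinearMap.inl ℂ (X → ℂ) (Z → B))) f +
      ∑ z : Z, ((φ.comp (ContinuousLinearMap.inr ℂ (X → ℂ) (Z → B))).comp
        (ContinuousLinearMap.single ℂ (fun _ : Z => B) z)) (b z) := by
    intro f b
    have e1 : ((f, b) : (X → ℂ) × (Z → B)) = (f, 0) + (0, b) := by simp
    conv_lhs => rw [e1]
    rw [map_add]
    congr 1
    have e2 : ((0, b) : (X → ℂ) × (Z → B)) =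
        ContinuousLinearMap.inr ℂ (X → ℂ) (Z → B) (∑ z, Pi.single z (b z)) := by
      rw [Finset.univ_sum_single]
      rfl
    rw [e2, map_sum, map_sum]
    rfl
  have e : (fun v : unitary B => φ (F v, fun z : Z => (v : B) * (z : B) * star (v : B))) =
      fun v => (φ.comp (ContinuousLinearMap.inl ℂ (X → ℂ) (Z → B))) (F v) +
        ∑ z : Z, ((φ.comp (ContinuousLinearMap.inr ℂ (X → ℂ) (Z → B))).comp
        (ContinuousLinearMap.single ℂ (fun _ : Z => B) z)) ((v : B) * (z : B) * star (v : B)) := by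
    funext v
    exact h0 _ _
  rw [e, E.add', E.sum', mean_fun E _ F a h, h0]
  congr 1
  refine Finset.sum_congr rfl fun z _ => ?_
  rw [hE.dixr, Algebra.algebraMap_eq_smul_one, map_smul, smul_eq_mul]

section

variable {B : Type} [CStarAlgebra B] {K : Type} [NormedAddCommGroup K] [InnerProductSpace ℂ K]

theorem sq_c {t : ℝ} (ht : 0 ≤ t) : ((√t : ℝ) : ℂ) * ((√t : ℝ) : ℂ) = (t : ℂ) := by
  rw [← Complex.ofReal_mul, Real.mul_self_sqrt ht]

/-- the combined family -/
def fam {n m : ℕ} (t : Fin n → ℝ) (v : Fin n → unitary B) (g : Fin m → B)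
    (p : Fin n × Fin m) : B := ((√(t p.1) : ℝ) : ℂ) • (g p.2 * (v p.1 : B))

theorem fam_star {n m : ℕ} (t : Fin n → ℝ) (v : Fin n → unitary B) (g : Fin m → B)
    (p : Fin n × Fin m) : star (fam t v g p) =
      ((√(t p.1) : ℝ) : ℂ) • (star (v p.1 : B) * star (g p.2)) := by
  unfold fam
  rw [star_smul, star_mul, RCLike.star_def, Complex.conj_ofReal]

theorem fam_conj {n m : ℕ} (t : Fin n → ℝ) (ht : ∀ i, 0 ≤ t i) (v : Fin n → unitary B)
    (g : Fin m → B) (z : B) (p : Fin n × Fin m) :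
    fam t v g p * z * star (fam t v g p) =
      (t p.1 : ℂ) • (g p.2 * ((v p.1 : B) * z * star (v p.1 : B)) * star (g p.2)) := by
  rw [fam_star]
  unfold fam
  rw [smul_mul_assoc, smul_mul_smul_comm, sq_c (ht _)]
  congr 1
  noncomm_ring

theorem fam_sq {n m : ℕ} (t : Fin n → ℝ) (ht : ∀ i, 0 ≤ t i) (v : Fin n → unitary B)
    (g : Fin m → B) (p : Fin n × Fin m) :
    star (fam t v g p) * fam t v g p =
      (t p.1 : ℂ) • (star (v p.1 : B) * (star (g p.2) * g p.2) * (v p.1 : B)) := by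
  rw [fam_star]
  unfold fam
  rw [smul_mul_smul_comm, sq_c (ht _)]
  congr 1
  noncomm_ring

theorem fam_part {n m : ℕ} (t : Fin n → ℝ) (ht : ∀ i, 0 ≤ t i) (ht1 : ∑ i, t i = 1)
    (v : Fin n → unitary B) (g : Fin m → B) (hg : IsPart g) :
    IsPart (fun j : Fin (n * m) => fam t v g (finProdFinEquiv.symm j)) := by
  have ht1' : ∑ i, (t i : ℂ) = 1 := by
    rw [← Complex.ofReal_sum, ht1, Complex.ofReal_one]
  constructor
  · rw [Equiv.sum_comp finProdFinEquiv.symm (fun p => star (fam t v g p) * fam t v g p),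
      Fintype.sum_prod_type]
    have : ∀ i, ∑ s, star (fam t v g (i, s)) * fam t v g (i, s) = (t i : ℂ) • (1 : B) := by
      intro i
      simp_rw [fam_sq t ht]
      rw [← Finset.smul_sum, ← Finset.sum_mul, ← Finset.mul_sum, hg.1, mul_one,
        Unitary.coe_star_mul_self]
    simp_rw [this]
    rw [← Finset.sum_smul, ht1', one_smul]
  · rw [Equiv.sum_comp finProdFinEquiv.symm (fun p => fam t v g p * star (fam t v g p)),
      Fintype.sum_prod_type]
    have : ∀ i, ∑ s, fam t v g (i, s) * star (fam t v g (i, s)) = (t i : ℂ) • (1 : B) := by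
      intro i
      have e : ∀ s, fam t v g (i, s) * star (fam t v g (i, s)) =
          (t i : ℂ) • (g s * star (g s)) := by
        intro s
        have := fam_conj t ht v g 1 (i, s)
        rw [mul_one] at this
        rw [this]
        simp
      simp_rw [e]
      rw [← Finset.smul_sum, hg.2]
    simp_rw [this]
    rw [← Finset.sum_smul, ht1', one_smul]

theorem fam_qf {w : B →ₗ[ℂ] (K →L[ℂ] K)} (hw : IsHom w) {n m : ℕ} (t : Fin n → ℝ)
    (ht : ∀ i, 0 ≤ t i) (v : Fin n → unitary B) (g : Fin m → B) (ξ η : K) :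
    qf w (fun j : Fin (n * m) => fam t v g (finProdFinEquiv.symm j)) ξ η =
      ∑ i, (t i : ℂ) * qf w g (w (v i : B) ξ) (w (v i : B) η) := by
  unfold qf
  rw [Equiv.sum_comp finProdFinEquiv.symm (fun p => ⟪w (fam t v g p) ξ, w (fam t v g p) η⟫_ℂ),
    Fintype.sum_prod_type]
  refine Finset.sum_congr rfl fun i _ => ?_
  rw [Finset.mul_sum]
  refine Finset.sum_congr rfl fun s _ => ?_
  unfold fam
  rw [map_smul, hw.mul]
  simp only [ContinuousLinearMap.smul_apply, ContinuousLinearMap.mul_apply]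
  rw [inner_smul_left, inner_smul_right, Complex.conj_ofReal, ← mul_assoc, sq_c (ht _)]

end

theorem prove_dixform : S_mazur → S_cb → S_dixform := by
  classical
  intro hm hcb B _ _ _ τ _ K _ _ _ w hw γ hγ hb E hE q hq hcol F Z ε hε
  obtain ⟨-, -, -, hform, -, -⟩ := hcb B K w hw γ hγ hb
  have hq' := hform q hq
  have hC : (0 : ℝ) ≤ 6 * γ ^ 2 := by positivity
  obtain ⟨n, t, v, ht, ht1, hts⟩ := hm (unitary B) E (((F × F) → ℂ) × (Z → B))
    (fun v => (fun x => q (w (v : B) (x.1 : K)) (w (v : B) (x.2 : K)),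
      fun z : Z => (v : B) * (z : B) * star (v : B)))
    ((∑ x : F × F, 6 * γ ^ 2 * (γ * ‖(x.1 : K)‖) * (γ * ‖(x.2 : K)‖)) +
      ∑ z : Z, ‖(z : B)‖) (by
      intro v
      have p1 : 0 ≤ ∑ x : F × F, 6 * γ ^ 2 * (γ * ‖(x.1 : K)‖) * (γ * ‖(x.2 : K)‖) :=
        Finset.sum_nonneg fun x _ => by positivity
      have p2 : 0 ≤ ∑ z : Z, ‖(z : B)‖ := Finset.sum_nonneg fun z _ => norm_nonneg _
      rw [Prod.norm_def]
      apply max_le
      · refine le_trans ?_ (le_add_of_nonneg_right p2)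
        rw [pi_norm_le_iff_of_nonneg p1]
        intro x
        refine (q_le hγ hb hC hq' v _ _).trans ?_
        exact Finset.single_le_sum
          (f := fun x : F × F => 6 * γ ^ 2 * (γ * ‖(x.1 : K)‖) * (γ * ‖(x.2 : K)‖))
          (fun x _ => by positivity) (Finset.mem_univ x)
      · refine le_trans ?_ (le_add_of_nonneg_left p1)
        rw [pi_norm_le_iff_of_nonneg p2]
        intro z
        have h1 : ‖(v : B) * (z : B) * star (v : B)‖ ≤ ‖(z : B)‖ := by
          have n1 := norm_uni v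
          have n2 : ‖star (v : B)‖ ≤ 1 := by rw [norm_star]; exact n1
          calc ‖(v : B) * (z : B) * star (v : B)‖ ≤ ‖(v : B)‖ * ‖(z : B)‖ * ‖star (v : B)‖ :=
                (norm_mul_le _ _).trans (mul_le_mul_of_nonneg_right (norm_mul_le _ _)
                  (norm_nonneg _))
            _ ≤ 1 * ‖(z : B)‖ * 1 := by gcongr
            _ = ‖(z : B)‖ := by ring
        exact h1.trans (Finset.single_le_sum (f := fun z : Z => ‖(z : B)‖)
          (fun z _ => norm_nonneg _) (Finset.mem_univ z)))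
    (fun x => q (x.1 : K) (x.2 : K), fun z : Z => algebraMap ℂ B (τ z))
    (fun φ => mean_fun2 hE φ _ _ fun x => hcol _ _) (ε / 4) (by positivity)
  -- the two parts
  have hA : ∀ ξ ∈ F, ∀ η ∈ F,
      ‖∑ i, (t i : ℂ) * q (w (v i : B) ξ) (w (v i : B) η) - q ξ η‖ ≤ ε / 4 := by
    intro ξ hξ η hη
    have h1 := (norm_le_pi_norm _ ((⟨ξ, hξ⟩, ⟨η, hη⟩) : F × F)).trans
      ((norm_fst_le _).trans hts)
    refine le_trans (le_of_eq ?_) h1
    congr 1
    simp only [Prod.fst_sub, Prod.fst_sum, Prod.smul_fst, Pi.sub_apply, Finset.sum_apply,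
      Pi.smul_apply, smul_eq_mul]
  have hB : ∀ z ∈ Z, ‖∑ i, (t i : ℂ) • ((v i : B) * z * star (v i : B)) -
      algebraMap ℂ B (τ z)‖ ≤ ε / 4 := by
    intro z hz
    have h1 := (norm_le_pi_norm _ (⟨z, hz⟩ : Z)).trans ((norm_snd_le _).trans hts)
    refine le_trans (le_of_eq ?_) h1
    congr 1
    simp only [Prod.snd_sub, Prod.snd_sum, Prod.smul_snd, Pi.sub_apply, Finset.sum_apply,
      Pi.smul_apply]
  obtain ⟨q', ⟨m, g, hg, rfl⟩, hqg⟩ := of_closure _ q hq
    (Finset.univ.biUnion fun i => F.image fun ξ => w (v i : B) ξ) (ε / 4) (by positivity)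
  refine ⟨n * m, fun j => fam t v g (finProdFinEquiv.symm j), fam_part t ht ht1 v g hg, ?_, ?_⟩
  · intro ξ hξ η hη
    rw [fam_qf hw t ht]
    have h1 : ‖∑ i, (t i : ℂ) * qf w g (w (v i : B) ξ) (w (v i : B) η) -
        ∑ i, (t i : ℂ) * q (w (v i : B) ξ) (w (v i : B) η)‖ ≤ ε / 4 := by
      rw [← Finset.sum_sub_distrib]
      calc _ ≤ ∑ i, ‖(t i : ℂ) * qf w g (w (v i : B) ξ) (w (v i : B) η) -
            (t i : ℂ) * q (w (v i : B) ξ) (w (v i : B) η)‖ := norm_sum_le _ _
        _ ≤ ∑ i, t i * (ε / 4) := by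
            refine Finset.sum_le_sum fun i _ => ?_
            rw [← mul_sub, norm_mul, Complex.norm_real, Real.norm_eq_abs, abs_of_nonneg (ht i)]
            refine mul_le_mul_of_nonneg_left (hqg _ ?_ _ ?_) (ht i)
            · exact Finset.mem_biUnion.2 ⟨i, Finset.mem_univ i, Finset.mem_image_of_mem _ hξ⟩
            · exact Finset.mem_biUnion.2 ⟨i, Finset.mem_univ i, Finset.mem_image_of_mem _ hη⟩
        _ = ε / 4 := by rw [← Finset.sum_mul, ht1, one_mul]
    have h2 := hA ξ hξ η hη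
    have h3 := norm_sub_le_norm_sub_add_norm_sub
      (∑ i, (t i : ℂ) * qf w g (w (v i : B) ξ) (w (v i : B) η))
      (∑ i, (t i : ℂ) * q (w (v i : B) ξ) (w (v i : B) η)) (q ξ η)
    linarith
  · intro z hz
    have e1 : ∑ j : Fin (n * m), fam t v g (finProdFinEquiv.symm j) * z *
        star (fam t v g (finProdFinEquiv.symm j)) - algebraMap ℂ B (τ z) =
        ∑ s, g s * (∑ i, (t i : ℂ) • ((v i : B) * z * star (v i : B)) -
          algebraMap ℂ B (τ z)) * star (g s) := by
      rw [Equiv.sum_comp finProdFinEquiv.symm (fun p => fam t v g p * z * star (fam t v g p)),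
        Fintype.sum_prod_type, Finset.sum_comm]
      have e2 : ∀ s, g s * (∑ i, (t i : ℂ) • ((v i : B) * z * star (v i : B)) -
          algebraMap ℂ B (τ z)) * star (g s) =
          ∑ i, (t i : ℂ) • (g s * ((v i : B) * z * star (v i : B)) * star (g s)) -
            algebraMap ℂ B (τ z) * (g s * star (g s)) := by
        intro s
        rw [mul_sub, sub_mul, Finset.mul_sum, Finset.sum_mul]
        congr 1
        · refine Finset.sum_congr rfl fun i _ => ?_
          rw [mul_smul_comm, smul_mul_assoc]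
        · rw [← Algebra.commutes, mul_assoc]
      simp_rw [e2]
      rw [Finset.sum_sub_distrib, ← Finset.mul_sum, hg.2, mul_one]
      congr 1
      refine Finset.sum_congr rfl fun s _ => Finset.sum_congr rfl fun i _ => ?_
      exact fam_conj t ht v g z (i, s)
    rw [e1]
    refine (conj_le g hg.2 _).trans ?_
    have := hB z hz
    linarith

end Pool.Agent.Y328.D3
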